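import Pool.Agent.W770.KP.Stm

/-!
# Greedy selection
-/

set_option autoImplicit false

open scoped Classical

namespace Pool.Agent.W82.KP

open Pool.Agent.W770.KP

theorem gr_aux {ι X : Type} (A : ι → Finset X) (st : ι → ℤ) (I : Finset ι) :
    ∃ Q : Finset ι, Q ⊆ I ∧
      (∀ i ∈ I, (A i).card ≤ 2 * ((A i).filter (fun x => ∃ j ∈ Q, st i ≤ st j ∧ x ∈ A j)).card) ∧
      ∑ i ∈ Q, (A i).card ≤ 2 * (Q.biUnion A).card := by
  refine Finset.induction_on_min_value st I ?_ ?_
  · exact ⟨∅, Finset.Subset.refl _, by simp, by simp⟩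
  · rintro a s ha hmin ⟨Q, hQs, h1, h2⟩
    by_cases hc : (A a).card ≤ 2 * (A a ∩ Q.biUnion A).card
    · refine ⟨Q, hQs.trans (Finset.subset_insert a s), ?_, h2⟩
      intro i hi
      rcases Finset.mem_insert.1 hi with rfl | hi
      · refine le_trans hc (Nat.mul_le_mul_left 2 (Finset.card_le_card ?_))
        intro x hx
        rw [Finset.mem_inter, Finset.mem_biUnion] at hx
        obtain ⟨hx1, j, hj, hxj⟩ := hx
        rw [Finset.mem_filter]
        exact ⟨hx1, j, hj, hmin j (hQs hj), hxj⟩
      · exact h1 i hi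
    · push Not at hc
      have haQ : a ∉ Q := fun h => ha (hQs h)
      refine ⟨insert a Q, Finset.insert_subset_insert a hQs, ?_, ?_⟩
      · intro i hi
        rcases Finset.mem_insert.1 hi with rfl | hi
        · have : (A i).filter (fun x => ∃ j ∈ insert i Q, st i ≤ st j ∧ x ∈ A j) = A i := by
            rw [Finset.filter_eq_self]
            intro x hx
            exact ⟨i, Finset.mem_insert_self i Q, le_refl _, hx⟩
          rw [this]
          omega
        · refine le_trans (h1 i hi) (Nat.mul_le_mul_left 2 (Finset.card_le_card ?_))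
          intro x hx
          rw [Finset.mem_filter] at hx ⊢
          obtain ⟨hx1, j, hj, hj2, hxj⟩ := hx
          exact ⟨hx1, j, Finset.mem_insert_of_mem hj, hj2, hxj⟩
      · rw [Finset.sum_insert haQ, Finset.biUnion_insert]
        have e1 : (A a ∪ Q.biUnion A).card + (A a ∩ Q.biUnion A).card =
            (A a).card + (Q.biUnion A).card := Finset.card_union_add_card_inter _ _
        omega

theorem gr : S_GR := by
  intro ι X I A S hAS st
  obtain ⟨Q, hQ, h1, h2⟩ := gr_aux A st I
  refine ⟨Q, hQ, h1, le_trans h2 (Nat.mul_le_mul_left 2 (Finset.card_le_card ?_))⟩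
  intro x hx
  rw [Finset.mem_biUnion] at hx
  obtain ⟨i, hi, hx⟩ := hx
  exact hAS i (hQ hi) hx

end Pool.Agent.W82.KP
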